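import Pool.Agent.K3h2.LT.Stm3

/-!
# Brick INQ3 of project LT: an inequality
-/

set_option autoImplicit false

namespace Pool.Agent.K3h91.LT

open Pool.Agent.K3h2.LT

theorem inq_key (g G P c : ℝ) (hg : 0 < g) (hP : 0 < P) (h3 : 3 * P ≤ G) (hgg : g ^ 2 = G + P)
    (hc : 0 < c) (hc2 : 27 * c ^ 2 = 4) :
    0 ≤ c * (1 - G) + g * (G ^ 2 - P * (1 + 2 * G)) := by
  have hG : 0 < G := by linarith
  rcases le_or_gt G 1 with h | h
  · have h1 : g * G / 3 ≤ c := by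
      have h4 : (g * G / 3) ^ 2 ≤ c ^ 2 := by
        have h5 : (g * G / 3) ^ 2 = (G + P) * G ^ 2 / 9 := by
          rw [← hgg]
          ring
        rw [h5]
        have h6 : G ^ 3 ≤ 1 := pow_le_one₀ hG.le h
        nlinarith [mul_nonneg (sub_nonneg.2 h3) (sq_nonneg G)]
      exact (pow_le_pow_iff_left₀ (by positivity) hc.le two_ne_zero).1 h4
    have h2 : c * (1 - G) + g * (G ^ 2 - P * (1 + 2 * G)) =
        (1 - G) * (c - g * G / 3) + g * (1 + 2 * G) * (G - 3 * P) / 3 := by ring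
    rw [h2]
    have h5 : 0 ≤ (1 - G) * (c - g * G / 3) := mul_nonneg (by linarith) (by linarith)
    have h6 : 0 ≤ g * (1 + 2 * G) * (G - 3 * P) :=
      mul_nonneg (mul_nonneg hg.le (by linarith)) (by linarith)
    linarith
  · obtain ⟨t, ht⟩ : ∃ t, t = G / 3 - P := ⟨_, rfl⟩
    obtain ⟨a, ha⟩ : ∃ a, a = G * (G - 1) / 3 := ⟨_, rfl⟩
    obtain ⟨b, hb⟩ : ∃ b, b = 1 + 2 * G := ⟨_, rfl⟩
    have ht0 : 0 ≤ t := by rw [ht]; linarith
    have ht1 : t ≤ G / 3 := by rw [ht]; linarith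
    have ha0 : 0 ≤ a := by
      rw [ha]
      have := mul_nonneg hG.le (by linarith : (0 : ℝ) ≤ G - 1)
      linarith
    have hb0 : 0 ≤ b := by rw [hb]; linarith
    have hab : a ≤ 2 * G * b := by
      rw [ha, hb]
      nlinarith
    have hR : G ^ 2 - P * (1 + 2 * G) = a + b * t := by
      rw [ha, hb, ht]
      ring
    have e1 : g ^ 2 = 4 * G / 3 - t := by
      rw [hgg, ht]
      ring
    have e3 : (a + b * t) ^ 2 ≤ (4 * G / 3) * (2 * a * b + b ^ 2 * t) := by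
      have s1 : 0 ≤ a * (2 * G * b - a) := mul_nonneg ha0 (by linarith)
      have s2 : 0 ≤ 2 * (a * b) * (G / 3 - t) :=
        mul_nonneg (mul_nonneg zero_le_two (mul_nonneg ha0 hb0)) (by linarith)
      have s3 : 0 ≤ b ^ 2 * t * (G / 3 - t) :=
        mul_nonneg (mul_nonneg (sq_nonneg b) ht0) (by linarith)
      have s4 : 0 ≤ G * (b ^ 2 * t) := mul_nonneg hG.le (mul_nonneg (sq_nonneg b) ht0)
      nlinarith
    have e4 : (4 * G / 3) * a ^ 2 ≤ (4 * G / 3 - t) * (a + b * t) ^ 2 := by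
      have e2 : (4 * G / 3 - t) * (a + b * t) ^ 2 - (4 * G / 3) * a ^ 2 =
          t * ((4 * G / 3) * (2 * a * b + b ^ 2 * t) - (a + b * t) ^ 2) := by ring
      have := mul_nonneg ht0 (sub_nonneg.2 e3)
      linarith
    have e5 : c ^ 2 * (G - 1) ^ 2 ≤ (4 * G / 3) * a ^ 2 := by
      have h6 : 1 ≤ G ^ 3 := one_le_pow₀ h.le
      have h7 : (4 * G / 3) * a ^ 2 - c ^ 2 * (G - 1) ^ 2 = 4 / 27 * ((G ^ 3 - 1) * (G - 1) ^ 2) +
          (4 / 27 - c ^ 2) * (G - 1) ^ 2 := by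
        rw [ha]
        ring
      have h8 : (4 : ℝ) / 27 - c ^ 2 = 0 := by linarith
      rw [h8, zero_mul, add_zero] at h7
      have h9 : 0 ≤ (G ^ 3 - 1) * (G - 1) ^ 2 := mul_nonneg (by linarith) (sq_nonneg _)
      linarith
    have e6 : (c * (G - 1)) ^ 2 ≤ (g * (a + b * t)) ^ 2 := by
      rw [mul_pow, mul_pow, e1]
      exact e5.trans e4
    have e7 : c * (G - 1) ≤ g * (a + b * t) := by
      refine (pow_le_pow_iff_left₀ (mul_nonneg hc.le (by linarith)) (mul_nonneg hg.le ?_)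
        two_ne_zero).1 e6
      exact add_nonneg ha0 (mul_nonneg hb0 ht0)
    rw [hR]
    linarith

theorem t_INQ3 : S3_INQ := by
  intro x y c hx hy hc hc2
  have h := inq_key (x + y) (x ^ 2 + x * y + y ^ 2) (x * y) c (by linarith) (mul_pos hx hy)
    (by nlinarith [sq_nonneg (x - y)]) (by ring) hc hc2
  have e : (2 * (x ^ 2 + x * y + y ^ 2) + 1) * ((x ^ 3 + y ^ 3) / 2 + c) -
      ((x + y) / 2 + 3 * c) * (x ^ 2 + x * y + y ^ 2) =
      c * (1 - (x ^ 2 + x * y + y ^ 2)) + (x + y) * ((x ^ 2 + x * y + y ^ 2) ^ 2 -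
        x * y * (1 + 2 * (x ^ 2 + x * y + y ^ 2))) := by ring
  linarith

end Pool.Agent.K3h91.LT
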